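import Pool.Agent.helper78.WB.SpecIII

set_option autoImplicit false

namespace Pool.Agent.WB

open MvPolynomial

theorem DIM3_card (n : ℕ) : Nat.card {μ : Fin 3 →₀ ℕ // μ.degree = n} = s3 n := by
  have h1 : {μ : Fin 3 →₀ ℕ | μ.degree = n}
      = ((Finset.univ : Finset (Fin 3)).finsuppAntidiag n : Set (Fin 3 →₀ ℕ)) := by
    ext μ
    simp only [Set.mem_ofPred_eq, Finset.mem_coe, Finset.mem_finsuppAntidiag,
      Finset.subset_univ, and_true]
    rw [Finsupp.degree_eq_sum]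
  have h2 : Nat.card {μ : Fin 3 →₀ ℕ // μ.degree = n}
      = Nat.card ({μ : Fin 3 →₀ ℕ | μ.degree = n} : Set (Fin 3 →₀ ℕ)) := rfl
  rw [h2, h1, Nat.card_coe_set_eq, Set.ncard_coe_finset,
    Finset.card_finsuppAntidiag_nat_eq_choose]
  simp only [Finset.card_univ, Fintype.card_fin, s3]
  have h3 : 3 + n - 1 = n + 2 := by omega
  rw [h3, Nat.choose_symm_add, Nat.choose_two_right]
  have h4 : n + 2 - 1 = n + 1 := by omega
  rw [h4, Nat.mul_comm]

theorem DIM3 : DIM3_stmt := by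
  refine ⟨DIM3_card, ?_⟩
  intro R _ _ n
  have hfin : Finite {μ : Fin 3 →₀ ℕ // μ.degree = n} := by
    apply Nat.finite_of_card_ne_zero
    rw [DIM3_card]
    have : 2 ≤ (n + 1) * (n + 2) := by nlinarith
    simp only [s3]
    omega
  have : Fintype {μ : Fin 3 →₀ ℕ // μ.degree = n} := Fintype.ofFinite _
  let e : homogeneousSubmodule (Fin 3) R n ≃ₗ[R] ({μ : Fin 3 →₀ ℕ // μ.degree = n} →₀ R) :=
    (LinearEquiv.ofEq _ _ (homogeneousSubmodule_eq_finsupp_supported (Fin 3) R n)).trans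
      (AddMonoidAlgebra.supportedEquivFinsupp {d : Fin 3 →₀ ℕ | d.degree = n})
  refine ⟨Module.Finite.equiv e.symm, Module.Free.of_equiv e.symm, ?_⟩
  rw [e.finrank_eq, Module.finrank_finsupp_self, ← Nat.card_eq_fintype_card, DIM3_card]

end Pool.Agent.WB
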