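import Pool.Agent.helper79.WB.SpecII

set_option autoImplicit false

namespace Pool.Agent.WB

namespace SAMPaux

open Finset

/-- the random variable `(k+1) [χ i = 0]` -/
noncomputable def Y {ι : Type} (k : ℕ) (χ : ι → Fin (k + 1)) (i : ι) : ℝ :=
  if χ i = 0 then ((k : ℝ) + 1) else 0

lemma Y_sq {ι : Type} (k : ℕ) (χ : ι → Fin (k + 1)) (i : ι) :
    Y k χ i * Y k χ i = ((k : ℝ) + 1) * Y k χ i := by
  unfold Y
  split_ifs <;> ring

lemma E1 {ι : Type} [Fintype ι] [DecidableEq ι] (k : ℕ) (T : Finset ι) :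
    ∑ χ : ι → Fin (k + 1), ∏ i ∈ T, Y k χ i = ((k : ℝ) + 1) ^ (Fintype.card ι) := by
  have h1 : ∀ χ : ι → Fin (k + 1), ∏ i ∈ T, Y k χ i
      = ∏ i : ι, (if i ∈ T then (if χ i = 0 then ((k : ℝ) + 1) else 0) else 1) := by
    intro χ
    rw [Finset.prod_ite_mem, Finset.univ_inter]
    rfl
  rw [Finset.sum_congr rfl (fun χ _ => h1 χ)]
  have h2 := Finset.prod_univ_sum (fun _ : ι => (Finset.univ : Finset (Fin (k + 1))))
    (fun (i : ι) (c : Fin (k + 1)) => (if i ∈ T then (if c = 0 then ((k : ℝ) + 1) else 0) else 1 : ℝ))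
  rw [Fintype.piFinset_univ] at h2
  rw [← h2]
  have h3 : ∀ i : ι, (∑ c : Fin (k + 1),
      (if i ∈ T then (if c = 0 then ((k : ℝ) + 1) else 0) else 1 : ℝ)) = (k : ℝ) + 1 := by
    intro i
    by_cases hi : i ∈ T
    · simp only [hi, if_true, Finset.sum_ite_eq', Finset.mem_univ]
    · simp only [hi, if_false, Finset.sum_const, Finset.card_univ, Fintype.card_fin, nsmul_eq_mul,
        mul_one]
      push_cast
      ring
  rw [Finset.prod_congr rfl (fun i _ => h3 i), Finset.prod_const, Finset.card_univ]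

lemma E_const {ι : Type} [Fintype ι] [DecidableEq ι] (k : ℕ) :
    ∑ _χ : ι → Fin (k + 1), (1 : ℝ) = ((k : ℝ) + 1) ^ (Fintype.card ι) := by
  have := E1 (ι := ι) k ∅
  simp only [Finset.prod_empty] at this
  exact this

lemma E_one {ι : Type} [Fintype ι] [DecidableEq ι] (k : ℕ) (i : ι) :
    ∑ χ : ι → Fin (k + 1), Y k χ i = ((k : ℝ) + 1) ^ (Fintype.card ι) := by
  have := E1 (ι := ι) k {i}
  simpa using this

lemma E_two {ι : Type} [Fintype ι] [DecidableEq ι] (k : ℕ) (i j : ι) (hij : i ≠ j) :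
    ∑ χ : ι → Fin (k + 1), Y k χ i * Y k χ j = ((k : ℝ) + 1) ^ (Fintype.card ι) := by
  have := E1 (ι := ι) k {i, j}
  simpa [Finset.prod_pair hij] using this

lemma var {ι : Type} [Fintype ι] [DecidableEq ι] (k : ℕ) (N : Finset ι) :
    ∑ χ : ι → Fin (k + 1), ((∑ i ∈ N, Y k χ i) - N.card) ^ 2
      ≤ ((k : ℝ) + 1) ^ (Fintype.card ι) * (((k : ℝ) + 1) * N.card) := by
  set P : ℝ := ((k : ℝ) + 1) ^ (Fintype.card ι) with hP
  have hP0 : 0 ≤ P := by positivity
  have h1 : ∀ χ : ι → Fin (k + 1), ((∑ i ∈ N, Y k χ i) - N.card) ^ 2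
      = ∑ i ∈ N, ∑ j ∈ N, (Y k χ i - 1) * (Y k χ j - 1) := by
    intro χ
    have : (∑ i ∈ N, Y k χ i) - N.card = ∑ i ∈ N, (Y k χ i - 1) := by
      rw [Finset.sum_sub_distrib]
      simp
    rw [this, sq, Finset.sum_mul_sum]
  rw [Finset.sum_congr rfl (fun χ _ => h1 χ), Finset.sum_comm]
  have h2 : ∀ i ∈ N, (∑ χ : ι → Fin (k + 1), ∑ j ∈ N, (Y k χ i - 1) * (Y k χ j - 1))
      ≤ P * ((k : ℝ) + 1) := by
    intro i hi
    rw [Finset.sum_comm]
    have h3 : ∀ j ∈ N, (∑ χ : ι → Fin (k + 1), (Y k χ i - 1) * (Y k χ j - 1))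
        = if j = i then P * k else 0 := by
      intro j _
      by_cases hji : j = i
      · subst hji
        rw [if_pos rfl]
        have h4 : ∀ χ : ι → Fin (k + 1), (Y k χ j - 1) * (Y k χ j - 1)
            = ((k : ℝ) + 1) * Y k χ j - 2 * Y k χ j + 1 := by
          intro χ
          have := Y_sq k χ j
          linear_combination this
        rw [Finset.sum_congr rfl (fun χ _ => h4 χ), Finset.sum_add_distrib,
          Finset.sum_sub_distrib, ← Finset.mul_sum, ← Finset.mul_sum, E_one, E_const]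
        ring
      · rw [if_neg hji]
        have h4 : ∀ χ : ι → Fin (k + 1), (Y k χ i - 1) * (Y k χ j - 1)
            = Y k χ i * Y k χ j - Y k χ i - Y k χ j + 1 := by
          intro χ
          ring
        rw [Finset.sum_congr rfl (fun χ _ => h4 χ), Finset.sum_add_distrib,
          Finset.sum_sub_distrib, Finset.sum_sub_distrib, E_two k i j (fun h => hji h.symm), E_one,
          E_one, E_const]
        ring
    rw [Finset.sum_congr rfl h3, Finset.sum_ite_eq' N i, if_pos hi]
    nlinarith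
  calc ∑ i ∈ N, ∑ χ : ι → Fin (k + 1), ∑ j ∈ N, (Y k χ i - 1) * (Y k χ j - 1)
      ≤ ∑ _i ∈ N, P * ((k : ℝ) + 1) := Finset.sum_le_sum h2
    _ = P * (((k : ℝ) + 1) * N.card) := by
      rw [Finset.sum_const, nsmul_eq_mul]; ring

lemma sum_Y {ι : Type} [Fintype ι] [DecidableEq ι] (k : ℕ) (χ : ι → Fin (k + 1)) (N : Finset ι) :
    ∑ i ∈ N, Y k χ i
      = ((k : ℝ) + 1) * ((N ∩ Finset.univ.filter (fun i => χ i = 0)).card : ℝ) := by
  have : N ∩ Finset.univ.filter (fun i => χ i = 0) = N.filter (fun i => χ i = 0) := by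
    ext i
    simp
  rw [this]
  unfold Y
  rw [← Finset.sum_filter, Finset.sum_const, nsmul_eq_mul]
  ring

lemma samp {ι β : Type} [Fintype ι] [DecidableEq ι] [DecidableEq β] (B : Finset β)
    (N : β → Finset ι) (θ K : ℕ) (hK : 1 ≤ K) (hθ : 32 * K ≤ θ)
    (hN : ∀ b ∈ B, θ ≤ (N b).card) (hB : B.Nonempty) :
    ∃ S : Finset ι, K * S.card ≤ 4 * Fintype.card ι ∧
      B.card ≤ 2 * (B.filter fun b => (N b).card ≤ 2 * K * (N b ∩ S).card).card := by
  obtain ⟨k, rfl⟩ : ∃ k, K = k + 1 := ⟨K - 1, by omega⟩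
  set P : ℝ := ((k : ℝ) + 1) ^ (Fintype.card ι) with hP
  have hP0 : 0 < P := by positivity
  set a : ℝ := (Fintype.card ι : ℝ) with ha
  set β' : ℝ := (B.card : ℝ) with hβ
  have hβ0 : 0 < β' := by
    rw [hβ]; exact_mod_cast hB.card_pos
  obtain ⟨b0, hb0⟩ := hB
  have ha0 : 0 < a := by
    have h1 := hN b0 hb0
    have h2 : (N b0).card ≤ Fintype.card ι := Finset.card_le_univ _
    have h3 : 0 < Fintype.card ι := by omega
    rw [ha]; exact_mod_cast h3
  -- the weight
  let W : (ι → Fin (k + 1)) → ℝ := fun χ =>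
    (∑ i, Y k χ i) * (1 / (4 * a)) +
      ∑ b ∈ B, ((∑ i ∈ N b, Y k χ i) - (N b).card) ^ 2 * (8 / (((N b).card : ℝ) ^ 2 * β'))
  have hEW : ∑ χ : ι → Fin (k + 1), W χ ≤ P * (1 / 2) := by
    have h1 : ∑ χ : ι → Fin (k + 1), W χ
        = (∑ χ : ι → Fin (k + 1), ∑ i, Y k χ i) * (1 / (4 * a)) +
          ∑ b ∈ B, (∑ χ : ι → Fin (k + 1), ((∑ i ∈ N b, Y k χ i) - (N b).card) ^ 2) *
            (8 / (((N b).card : ℝ) ^ 2 * β')) := by
      simp only [W]
      rw [Finset.sum_add_distrib, Finset.sum_mul]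
      congr 1
      rw [Finset.sum_comm]
      refine Finset.sum_congr rfl (fun b _ => ?_)
      rw [Finset.sum_mul]
    rw [h1]
    have h2 : (∑ χ : ι → Fin (k + 1), ∑ i, Y k χ i) * (1 / (4 * a)) = P * (1 / 4) := by
      rw [Finset.sum_comm, Finset.sum_congr rfl (fun i _ => E_one k i), Finset.sum_const,
        Finset.card_univ, nsmul_eq_mul, ← hP, ← ha]
      field_simp
    have h3 : ∀ b ∈ B, (∑ χ : ι → Fin (k + 1), ((∑ i ∈ N b, Y k χ i) - (N b).card) ^ 2) *
            (8 / (((N b).card : ℝ) ^ 2 * β')) ≤ P * (1 / 4) / β' := by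
      intro b hb
      have hn : (32 : ℝ) * ((k : ℝ) + 1) ≤ ((N b).card : ℝ) := by
        have := le_trans hθ (hN b hb)
        exact_mod_cast this
      have hn0 : (0 : ℝ) < ((N b).card : ℝ) := by
        have : (0 : ℝ) ≤ (k : ℝ) := Nat.cast_nonneg k
        linarith
      have hv := var k (N b)
      rw [← hP] at hv
      calc (∑ χ : ι → Fin (k + 1), ((∑ i ∈ N b, Y k χ i) - (N b).card) ^ 2) *
            (8 / (((N b).card : ℝ) ^ 2 * β'))
          ≤ (P * (((k : ℝ) + 1) * (N b).card)) * (8 / (((N b).card : ℝ) ^ 2 * β')) := by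
            apply mul_le_mul_of_nonneg_right hv
            positivity
        _ = (P / β') * (8 * ((k : ℝ) + 1) / (N b).card) := by
            field_simp
        _ ≤ (P / β') * (1 / 4) := by
            apply mul_le_mul_of_nonneg_left _ (by positivity)
            rw [div_le_iff₀ hn0]
            linarith
        _ = P * (1 / 4) / β' := by ring
    have h4 := Finset.sum_le_sum h3
    rw [Finset.sum_const, nsmul_eq_mul] at h4
    have h5 : (B.card : ℝ) * (P * (1 / 4) / β') = P * (1 / 4) := by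
      rw [← hβ]
      field_simp
    rw [h5] at h4
    linarith [h2, h4]
  -- some χ has W χ < 1
  obtain ⟨χ, hχ⟩ : ∃ χ : ι → Fin (k + 1), W χ < 1 := by
    by_contra hcon
    push Not at hcon
    have h1 : ∑ _χ : ι → Fin (k + 1), (1 : ℝ) ≤ ∑ χ : ι → Fin (k + 1), W χ :=
      Finset.sum_le_sum (fun χ _ => hcon χ)
    rw [E_const, ← hP] at h1
    linarith
  have hW1 : 0 ≤ (∑ i, Y k χ i) * (1 / (4 * a)) := by
    apply mul_nonneg
    · apply Finset.sum_nonneg
      intro i _
      unfold Y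
      split_ifs <;> positivity
    · positivity
  have hW2 : 0 ≤ ∑ b ∈ B, ((∑ i ∈ N b, Y k χ i) - (N b).card) ^ 2 *
      (8 / (((N b).card : ℝ) ^ 2 * β')) := by
    apply Finset.sum_nonneg
    intro b _
    positivity
  refine ⟨Finset.univ.filter (fun i => χ i = 0), ?_, ?_⟩
  · have h1 : (∑ i, Y k χ i) * (1 / (4 * a)) < 1 := by
      have : W χ = (∑ i, Y k χ i) * (1 / (4 * a)) + ∑ b ∈ B,
        ((∑ i ∈ N b, Y k χ i) - (N b).card) ^ 2 * (8 / (((N b).card : ℝ) ^ 2 * β')) := rfl
      linarith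
    have h2 : ∑ i, Y k χ i < 4 * a := by
      have : (0 : ℝ) < 4 * a := by positivity
      rw [mul_one_div, div_lt_one this] at h1
      exact h1
    rw [sum_Y k χ Finset.univ, Finset.univ_inter] at h2
    have h3 : (((k + 1) * (Finset.univ.filter (fun i => χ i = 0)).card : ℕ) : ℝ)
        < ((4 * Fintype.card ι : ℕ) : ℝ) := by
      push_cast
      rw [← ha]
      exact h2
    exact (Nat.cast_lt.mp h3).le
  · -- the bad ones
    by_contra hcon
    push Not at hcon
    set G := B.filter fun b => (N b).card ≤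
      2 * (k + 1) * (N b ∩ Finset.univ.filter (fun i => χ i = 0)).card with hG
    set Bad := B.filter fun b => ¬ ((N b).card ≤
      2 * (k + 1) * (N b ∩ Finset.univ.filter (fun i => χ i = 0)).card) with hBad
    have hcard : G.card + Bad.card = B.card := Finset.card_filter_add_card_filter_not _
    have hbad : B.card ≤ 2 * Bad.card := by omega
    have h1 : ∀ b ∈ Bad, 2 / β' ≤ ((∑ i ∈ N b, Y k χ i) - (N b).card) ^ 2 *
        (8 / (((N b).card : ℝ) ^ 2 * β')) := by
      intro b hb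
      rw [hBad, Finset.mem_filter] at hb
      obtain ⟨hbB, hb2⟩ := hb
      push Not at hb2
      have hn : (32 : ℝ) * ((k : ℝ) + 1) ≤ ((N b).card : ℝ) := by
        have := le_trans hθ (hN b hbB)
        exact_mod_cast this
      have hn0 : (0 : ℝ) < ((N b).card : ℝ) := by
        have : (0 : ℝ) ≤ (k : ℝ) := Nat.cast_nonneg k
        linarith
      have hb3 : 2 * (∑ i ∈ N b, Y k χ i) ≤ ((N b).card : ℝ) := by
        rw [sum_Y k χ (N b)]
        have : ((2 * (k + 1) * (N b ∩ Finset.univ.filter (fun i => χ i = 0)).card : ℕ) : ℝ)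
            ≤ ((N b).card : ℝ) := by exact_mod_cast hb2.le
        push_cast at this
        linarith
      have hb4 : ((N b).card : ℝ) ^ 2 / 4 ≤ ((∑ i ∈ N b, Y k χ i) - (N b).card) ^ 2 := by
        nlinarith
      calc 2 / β' = ((N b).card : ℝ) ^ 2 / 4 * (8 / (((N b).card : ℝ) ^ 2 * β')) := by
            field_simp
            norm_num
        _ ≤ _ := by
            apply mul_le_mul_of_nonneg_right hb4
            positivity
    have h2 : ∑ b ∈ Bad, 2 / β' ≤ ∑ b ∈ B, ((∑ i ∈ N b, Y k χ i) - (N b).card) ^ 2 *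
        (8 / (((N b).card : ℝ) ^ 2 * β')) := by
      refine le_trans (Finset.sum_le_sum h1) ?_
      apply Finset.sum_le_sum_of_subset_of_nonneg
      · exact Finset.filter_subset _ _
      · intro b _ _
        positivity
    rw [Finset.sum_const, nsmul_eq_mul] at h2
    have h3 : (1 : ℝ) ≤ (Bad.card : ℝ) * (2 / β') := by
      rw [mul_div_assoc', le_div_iff₀ hβ0, one_mul, hβ]
      have : ((B.card : ℕ) : ℝ) ≤ ((2 * Bad.card : ℕ) : ℝ) := by exact_mod_cast hbad
      push_cast at this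
      linarith
    have : W χ = (∑ i, Y k χ i) * (1 / (4 * a)) + ∑ b ∈ B,
      ((∑ i ∈ N b, Y k χ i) - (N b).card) ^ 2 * (8 / (((N b).card : ℝ) ^ 2 * β')) := rfl
    linarith

end SAMPaux

theorem SAMP : SAMP_stmt := by
  intro A B Nb θ K hK hθ hNb
  classical
  rcases B.eq_empty_or_nonempty with hB | hB
  · refine ⟨∅, Finset.empty_subset _, by simp, ?_⟩
    rw [hB]; simp
  · have hc : ∀ b ∈ B, ((Nb b).subtype (fun x => x ∈ A)).card = (Nb b).card := by
      intro b hb
      rw [Finset.card_subtype, Finset.filter_true_of_mem (fun x hx => (hNb b hb).1 hx)]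
    obtain ⟨S, hS1, hS2⟩ := SAMPaux.samp (ι := {x // x ∈ A}) B
      (fun b => (Nb b).subtype (fun x => x ∈ A)) θ K hK hθ
      (fun b hb => by rw [hc b hb]; exact (hNb b hb).2) hB
    have hS3 : ∀ b ∈ B, ((Nb b).subtype (fun x => x ∈ A) ∩ S).card
        = (Nb b ∩ S.map (Function.Embedding.subtype _)).card := by
      intro b hb
      rw [← Finset.card_map (Function.Embedding.subtype (fun x => x ∈ A))]
      congr 1
      ext x
      simp only [Finset.mem_map, Finset.mem_inter, Finset.mem_subtype,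
        Function.Embedding.subtype_apply, Subtype.exists, exists_and_right, exists_eq_right]
      constructor
      · rintro ⟨hx, h1, h2⟩
        exact ⟨h1, hx, h2⟩
      · rintro ⟨h1, hx, h2⟩
        exact ⟨hx, h1, h2⟩
    refine ⟨S.map (Function.Embedding.subtype _), ?_, ?_, ?_⟩
    · intro x hx
      simp only [Finset.mem_map, Function.Embedding.subtype_apply] at hx
      obtain ⟨y, _, rfl⟩ := hx
      exact y.2
    · rw [Finset.card_map]
      simpa using hS1
    · have h1 : (B.filter fun b => (Nb b).card ≤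
          2 * K * (Nb b ∩ S.map (Function.Embedding.subtype _)).card)
          = (B.filter fun b => ((Nb b).subtype (fun x => x ∈ A)).card ≤
            2 * K * ((Nb b).subtype (fun x => x ∈ A) ∩ S).card) := by
        apply Finset.filter_congr
        intro b hb
        rw [hS3 b hb, hc b hb]
      rw [h1]
      exact hS2

end Pool.Agent.WB
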